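import Pool.Agent.helper51.RMX.Spec

set_option autoImplicit false

namespace Pool.Agent.RMX

open Pool.Agent.RB NumberField IsDedekindDomain Module
open scoped nonZeroDivisors Real Classical IsMulCommutative

theorem PSN_image {G Q : Type} [Group G] [Finite G] [Group Q] [Finite Q]
    [DecidableEq (Q →* ℂˣ)] (f : G →* Q)
    (hf : Function.Surjective f) (c : G) (Δ : Subgroup Q) :
    PsN f.ker (Δ.comap f) c = (odd (f c) \ Psi Δ (f c)).image (fun ψ => ψ.comp f) := by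
  have key : ∀ ψ : Q →* ℂˣ, (ψ.comp f ∈ Psi (Δ.comap f) c ↔ ψ ∈ Psi Δ (f c)) := by
    intro ψ
    unfold Psi
    rw [Finset.mem_filter, Finset.mem_filter]
    refine and_congr (by simp) (and_congr ?_ Iff.rfl)
    constructor
    · intro h b hb
      obtain ⟨a, rfl⟩ := hf b
      exact h a hb
    · intro h a ha
      exact h (f a) ha
  ext φ
  rw [PsN, Finset.mem_sdiff, Finset.mem_image]
  constructor
  · rintro ⟨hφ, hn⟩
    obtain ⟨-, h1, h2⟩ := Finset.mem_filter.1 hφ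
    have hker : f.ker ≤ φ.ker := fun b hb => h1 b hb
    have hcomp : (f.liftOfSurjective hf ⟨φ, hker⟩).comp f = φ :=
      MonoidHom.liftOfRightInverse_comp f _ _ ⟨φ, hker⟩
    refine ⟨f.liftOfSurjective hf ⟨φ, hker⟩, ?_, hcomp⟩
    rw [Finset.mem_sdiff]
    constructor
    · refine Finset.mem_filter.2 ⟨Finset.mem_univ _, ?_⟩
      have := DFunLike.congr_fun hcomp c
      rw [MonoidHom.comp_apply] at this
      rw [this, h2]
    · rw [← key, hcomp]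
      exact hn
  · rintro ⟨ψ, hψ, rfl⟩
    rw [Finset.mem_sdiff] at hψ
    obtain ⟨h1, h2⟩ := hψ
    refine ⟨?_, ?_⟩
    · have h3 : ψ (f c) = -1 := (Finset.mem_filter.1 h1).2
      refine Finset.mem_filter.2 ⟨Finset.mem_univ _, ?_, h3⟩
      intro b hb
      have hb' : f b = 1 := hb
      rw [MonoidHom.comp_apply, hb', map_one]
    · rw [key]
      exact h2

theorem PSN_gen {G Q : Type} [Group G] [Finite G] [Group Q] [Finite Q]
    [DecidableEq (Q →* ℂˣ)] (f : G →* Q)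
    (hf : Function.Surjective f) (c : G) (Δ : Subgroup Q) (g : (G →* ℂˣ) → ℂ) :
    ∏ ψ ∈ odd (f c) \ Psi Δ (f c), g (ψ.comp f) = ∏ ψ ∈ PsN f.ker (Δ.comap f) c, g ψ ∧
    (odd (f c) \ Psi Δ (f c)).card = (PsN f.ker (Δ.comap f) c).card := by
  have hinj : Set.InjOn (fun ψ : Q →* ℂˣ => ψ.comp f)
      ((odd (f c) \ Psi Δ (f c) : Finset (Q →* ℂˣ)) : Set (Q →* ℂˣ)) :=
    fun ψ _ ψ' _ h => (MonoidHom.cancel_right hf).1 h
  rw [PSN_image f hf c Δ]
  exact ⟨(Finset.prod_image hinj).symm, (Finset.card_image_of_injOn hinj).symm⟩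

theorem PSN_inv' {G : Type} [Group G] [Finite G] (B : Subgroup G) (c : G) (ψ : G →* ℂˣ)
    (h : ψ⁻¹ ∈ Psi B c) : ψ ∈ Psi B c := by
  obtain ⟨-, h1, h2⟩ := Finset.mem_filter.1 h
  refine Finset.mem_filter.2 ⟨Finset.mem_univ _, fun b hb => ?_, ?_⟩
  · have h3 := h1 b hb
    rw [MonoidHom.inv_apply] at h3
    exact inv_eq_one.1 h3
  · rw [MonoidHom.inv_apply] at h2
    rw [← inv_inv (ψ c), h2, inv_neg, inv_one]

theorem PSN_inv {G : Type} [Group G] [Finite G] (B B' : Subgroup G) (c : G) (ψ : G →* ℂˣ)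
    (h : ψ ∈ PsN B B' c) : ψ⁻¹ ∈ PsN B B' c := by
  rw [PsN, Finset.mem_sdiff] at h ⊢
  exact ⟨PSI_inv B c ψ h.1, fun h' => h.2 (PSN_inv' B' c ψ h')⟩

theorem PSN : PSN_stmt := by
  intro F K H _ _ _ _ _ _ _ _ _ _ _ _ c _ Δ g
  have h1 := PSN_gen _ (AlgEquiv.restrictNormalHom_surjective (F := F) (K₁ := K) H) c Δ g
  refine ⟨h1.1, h1.2, fun B B' => ?_⟩
  exact Finset.prod_bij (fun ψ _ => ψ⁻¹) (fun ψ hψ => PSN_inv B B' c ψ hψ)
    (fun ψ _ ψ' _ h => inv_injective h) (fun ψ hψ => ⟨ψ⁻¹, PSN_inv B B' c ψ hψ, inv_inv ψ⟩)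
    (fun ψ _ => rfl)

end Pool.Agent.RMX
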